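import Pool.Agent.helper28.AN.Comb
import Pool.Agent.helper4.AN.Poly

/-!
# The point space of a countable linear order in the plane
-/

namespace ANC

open ANB Set Topology

lemma image_sem {Z Z' : Type*} [TopologicalSpace Z] [TopologicalSpace Z'] {f : Z → Z'}
    (hf : IsClosedEmbedding f) (P : ℕ → Set Z) (φ : Fm) :
    f '' φ.sem P = φ.sem (fun l => f '' P l) := by
  induction φ with
  | atom l => rfl
  | diff a b iha ihb =>
    simp only [Fm.sem]
    rw [image_sdiff hf.injective, iha, ihb]
  | union g ih =>
    simp only [Fm.sem]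
    rw [image_iUnion]
    simp only [ih]
  | inter g ih =>
    simp only [Fm.sem]
    rw [(hf.injective.injOn).image_iInter_eq]
    simp only [ih]
  | cl a ih =>
    simp only [Fm.sem]
    rw [← hf.closure_image_eq, ih]

section embed

variable {O : Type} (e : ℕ ≃ O)

/-- total weight of a set -/
noncomputable def wsum (c : O → Bool) : ℝ := ∑' j, if c (e j) = true then wt j else 0

lemma summable_wsum (c : O → Bool) : Summable fun j => if c (e j) = true then wt j else 0 :=
  summable_ite_wt (fun j => c (e j) = true)

lemma continuous_wsum : Continuous (wsum e) := by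
  unfold wsum
  refine continuous_tsum (fun j => ?_) summable_wt (fun j c => ?_)
  · have h1 : Continuous fun c : O → Bool => c (e j) := by fun_prop
    exact (continuous_of_discreteTopology (f := fun b : Bool => if b = true then wt j else 0)).comp h1
  · split_ifs
    · rw [Real.norm_of_nonneg (wt_nonneg j)]
    · rw [norm_zero]; exact wt_nonneg j

lemma wsum_lt {c d : O → Bool} (h : ∀ j, c j = true → d j = true) {x : O} (hx : d x = true)
    (hx' : c x ≠ true) : wsum e c < wsum e d := by
  unfold wsum
  refine Summable.tsum_lt_tsum (i := e.symm x) (fun j => ?_) ?_ (summable_wsum e c)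
    (summable_wsum e d)
  · by_cases hc : c (e j) = true
    · simp [hc, h _ hc]
    · rw [if_neg hc]
      split_ifs
      · exact wt_nonneg j
      · exact le_rfl
  · simp only [Equiv.apply_symm_apply, hx, hx', if_true]
    exact wt_pos _

lemma wsum_none {d : O → Bool} (h : ∀ j, d j ≠ true) : wsum e d = 0 := by
  unfold wsum
  simp [h]

lemma wt_injective : Function.Injective wt := by
  intro i j h
  unfold wt at h
  have := (pow_right_injective₀ (by norm_num : (0 : ℝ) < 1 / 2) (by norm_num)) h
  simpa using this

variable [LinearOrder O]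

/-- the position of a point -/
noncomputable def empl (p : Pt O) : ℝ × ℝ :=
  (wsum e p.1.1 + wsum e p.1.2 / 2, wsum e p.1.2 / 4)

lemma continuous_empl : Continuous (empl e) := by
  have h1 : Continuous fun p : Pt O => p.1.1 := continuous_fst.comp continuous_subtype_val
  have h2 : Continuous fun p : Pt O => p.1.2 := continuous_snd.comp continuous_subtype_val
  have h3 := (continuous_wsum e).comp h1
  have h4 := (continuous_wsum e).comp h2
  exact (h3.add (h4.div_const 2)).prodMk (h4.div_const 4)

lemma wsum_single (x : O) : wsum e (fun j => decide (j = x)) = wt (e.symm x) := by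
  unfold wsum
  rw [tsum_eq_single (e.symm x)]
  · simp
  · intro j hj
    rw [if_neg]
    intro hc
    apply hj
    rw [decide_eq_true_eq] at hc
    rw [← hc, Equiv.symm_apply_apply]

lemma empl_injective : Function.Injective (empl e) := by
  intro p p' h
  have h2 : wsum e p.1.2 = wsum e p'.1.2 := by
    have := congrArg Prod.snd h
    simp only [empl] at this
    linarith
  have h1 : wsum e p.1.1 = wsum e p'.1.1 := by
    have := congrArg Prod.fst h
    simp only [empl] at this
    linarith
  by_cases hp : ∃ x, p.1.2 x = true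
  · obtain ⟨x, hx⟩ := hp
    have e1 := eq_ptO hx
    have w1 : wsum e p.1.2 = wt (e.symm x) := by
      rw [e1]; exact wsum_single e x
    by_cases hp' : ∃ x', p'.1.2 x' = true
    · obtain ⟨x', hx'⟩ := hp'
      have e2 := eq_ptO hx'
      have w2 : wsum e p'.1.2 = wt (e.symm x') := by
        rw [e2]; exact wsum_single e x'
      rw [w1, w2] at h2
      have := e.symm.injective (wt_injective h2)
      rw [e1, e2, this]
    · push Not at hp'
      have w2 := wsum_none e (d := p'.1.2) hp'
      rw [w1, w2] at h2
      exact absurd h2 (wt_pos _).ne'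
  · by_cases hp' : ∃ x', p'.1.2 x' = true
    · obtain ⟨x', hx'⟩ := hp'
      have e2 := eq_ptO hx'
      have w2 : wsum e p'.1.2 = wt (e.symm x') := by
        rw [e2]; exact wsum_single e x'
      push Not at hp
      have w1 := wsum_none e (d := p.1.2) hp
      rw [w1, w2] at h2
      exact absurd h2.symm (wt_pos _).ne'
    · push Not at hp hp'
      apply Subtype.ext
      apply Prod.ext
      · by_contra hne
        have hcomp : (∀ j, p.1.1 j = true → p'.1.1 j = true) ∨
            (∀ j, p'.1.1 j = true → p.1.1 j = true) := by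
          by_contra hc
          push Not at hc
          obtain ⟨⟨i, hi, hi'⟩, ⟨j, hj, hj'⟩⟩ := hc
          rcases lt_trichotomy i j with hij | hij | hij
          · exact hi' (p'.2.1 i j hij hj)
          · subst hij; exact hj' hi
          · exact hj' (p.2.1 j i hij hi)
        rcases hcomp with hc | hc
        · have : ∃ x, p'.1.1 x = true ∧ p.1.1 x ≠ true := by
            by_contra hno
            push Not at hno
            apply hne
            funext x
            have a1 := hc x
            have a2 := hno x
            cases h3 : p.1.1 x <;> cases h4 : p'.1.1 x <;> simp_all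
          obtain ⟨x, hx, hx'⟩ := this
          exact absurd h1 (wsum_lt e hc hx hx').ne
        · have : ∃ x, p.1.1 x = true ∧ p'.1.1 x ≠ true := by
            by_contra hno
            push Not at hno
            apply hne
            funext x
            have a1 := hc x
            have a2 := hno x
            cases h3 : p.1.1 x <;> cases h4 : p'.1.1 x <;> simp_all
          obtain ⟨x, hx, hx'⟩ := this
          exact absurd h1.symm (wsum_lt e hc hx hx').ne
      · funext x
        have a1 := hp x
        have a2 := hp' x
        simp only [ne_eq, Bool.not_eq_true] at a1 a2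
        rw [a1, a2]

lemma isClosed_Pt : IsClosed (Pt O) := by
  have h : Pt O = (⋂ i, ⋂ j, {p | i < j → p.1 j = true → p.1 i = true}) ∩
      ⋂ x, {p | p.2 x = true → (∀ j, p.1 j = true ↔ j < x) ∧ (∀ j, p.2 j = true → j = x)} := by
    ext p
    simp only [Pt, mem_ofPred_eq, mem_inter_iff, mem_iInter]
  rw [h]
  have key : ∀ (x y : O) (Q : Bool → Bool → Prop) (a b : ((O → Bool) × (O → Bool)) → Bool),
      Continuous a → Continuous b → IsClosed {p : (O → Bool) × (O → Bool) | Q (a p) (b p)} := by
    intro x y Q a b ha hb
    exact (isClosed_discrete {q : Bool × Bool | Q q.1 q.2}).preimage (ha.prodMk hb)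
  refine IsClosed.inter ?_ ?_
  · refine isClosed_iInter fun i => isClosed_iInter fun j => ?_
    exact key i j (fun a b => i < j → a = true → b = true) (fun p => p.1 j) (fun p => p.1 i)
      (by fun_prop) (by fun_prop)
  · refine isClosed_iInter fun x => ?_
    have h2 : {p : (O → Bool) × (O → Bool) | p.2 x = true →
        (∀ j, p.1 j = true ↔ j < x) ∧ (∀ j, p.2 j = true → j = x)} =
        (⋂ j, {p | p.2 x = true → (p.1 j = true ↔ j < x)}) ∩
        ⋂ j, {p | p.2 x = true → (p.2 j = true → j = x)} := by
      ext p
      simp only [mem_ofPred_eq, mem_inter_iff, mem_iInter]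
      constructor
      · intro h
        exact ⟨fun j hj => (h hj).1 j, fun j hj => (h hj).2 j⟩
      · intro h hx
        exact ⟨fun j => h.1 j hx, fun j => h.2 j hx⟩
    rw [h2]
    refine IsClosed.inter (isClosed_iInter fun j => ?_) (isClosed_iInter fun j => ?_)
    · exact key x j (fun a b => a = true → (b = true ↔ j < x)) (fun p => p.2 x) (fun p => p.1 j)
        (by fun_prop) (by fun_prop)
    · exact key x j (fun a b => a = true → (b = true → j = x)) (fun p => p.2 x) (fun p => p.2 j)
        (by fun_prop) (by fun_prop)

instance : CompactSpace (Pt O) := isCompact_iff_compactSpace.1 isClosed_Pt.isCompact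

lemma isClosedEmbedding_empl : IsClosedEmbedding (empl e) :=
  (continuous_empl e).isClosedEmbedding (empl_injective e)

/-- the code of the order -/
def cod (i j : ℕ) : Bool := decide (e i < e j)

lemma empl_ptO (i : ℕ) : empl e (ptO (e i)) = mk (cod e) i := by
  have h1 : wsum e (ptO (e i)).1.2 = wt i := by
    have := wsum_single e (e i)
    rw [Equiv.symm_apply_apply] at this
    exact this
  have h2 : wsum e (ptO (e i)).1.1 = lft (cod e) i := rfl
  unfold empl mk ctr
  rw [h1, h2]

lemma marks_eq (ℓ : O → ℕ) (l : ℕ) :
    marks (cod e) (fun i => ℓ (e i)) l = empl e '' marksO ℓ l := by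
  ext p
  constructor
  · rintro ⟨i, hi, rfl⟩
    exact ⟨ptO (e i), ⟨e i, hi, rfl⟩, empl_ptO e i⟩
  · rintro ⟨_, ⟨x, hx, rfl⟩, rfl⟩
    refine ⟨e.symm x, by simpa using hx, ?_⟩
    rw [← empl_ptO, Equiv.apply_symm_apply]

lemma sem_marks (φ : Fm) (ℓ : O → ℕ) :
    φ.sem (marks (cod e) (fun i => ℓ (e i))) = empl e '' semO φ ℓ := by
  unfold semO
  rw [image_sem (isClosedEmbedding_empl e)]
  congr 1
  funext l
  exact marks_eq e ℓ l

lemma isLin_cod : IsLin (cod e) where
  irrefl i := by simp [cod]
  trans i j k h1 h2 := by
    simp only [cod, decide_eq_true_eq] at *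
    exact h1.trans h2
  total i j hij := by
    simp only [cod, decide_eq_true_eq]
    exact lt_or_gt_of_ne (fun h => hij (e.injective h))

lemma iso_cod (L ℓ : O → ℕ) (g : O ≃o O) (h : ∀ o, ℓ (g o) = L o) :
    Iso (cod e, fun i => L (e i)) (cod e, fun i => ℓ (e i)) := by
  refine ⟨(e.trans g.toEquiv).trans e.symm, fun i j => ?_, fun i => ?_⟩
  · simp [cod]
  · simp [h]

end embed

/-- **Borel sets reduce to isomorphism of labelled linear orders on `ℕ`, the two classes being
separated by a topological formula evaluated at the planar markers.** -/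
theorem comb_planar (B : Set (ℕ → Bool)) (hB : MeasurableSet B) :
    ∃ (r : ℕ → ℕ → Bool) (L : (ℕ → Bool) → ℕ → ℕ) (ℓp ℓm : ℕ → ℕ) (φ : Fm),
      IsLin r ∧ Continuous L ∧ (∀ x ∈ B, Iso (r, L x) (r, ℓp)) ∧
      (∀ x ∉ B, Iso (r, L x) (r, ℓm)) ∧ (φ.sem (marks r ℓp)).Nonempty ∧
      φ.sem (marks r ℓm) = ∅ := by
  obtain ⟨O, hO, hc, hi, L, ℓp, ℓm, φp, φm, hL, hp, hm, h1, h2, h3, h4⟩ := comb_order B hB
  obtain ⟨e⟩ : Nonempty (ℕ ≃ O) := by
    obtain ⟨d⟩ := nonempty_denumerable O
    exact ⟨(Denumerable.eqv O).symm⟩
  refine ⟨cod e, fun x i => L x (e i), fun i => ℓp (e i), fun i => ℓm (e i), φp, isLin_cod e,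
    continuous_pi fun i => hL (e i), fun x hx => ?_, fun x hx => ?_, ?_, ?_⟩
  · obtain ⟨g, hg⟩ := hp x hx
    exact iso_cod e _ _ g hg
  · obtain ⟨g, hg⟩ := hm x hx
    exact iso_cod e _ _ g hg
  · rw [sem_marks]
    exact h1.image _
  · rw [sem_marks, h2, image_empty]

end ANC
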