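import Mathlib

/-!
# Colourings of countable dense orders

A countable dense order with a colouring all of whose classes are dense, and uniqueness of such
colourings (back and forth).
-/

namespace ANC

/-- every colour is dense -/
def DenseCol {K : Type*} [LinearOrder K] (c : K → ℕ) : Prop :=
  ∀ n a b, a < b → ∃ k, a < k ∧ k < b ∧ c k = n

section between

variable {K : Type*} [LinearOrder K] [DenselyOrdered K] [NoMinOrder K] [NoMaxOrder K] [Nonempty K]

lemma fin_between {c : K → ℕ} (hc : DenseCol c) (n : ℕ) (A B : Finset K)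
    (h : ∀ a ∈ A, ∀ b ∈ B, a < b) : ∃ k, c k = n ∧ (∀ a ∈ A, a < k) ∧ ∀ b ∈ B, k < b := by
  classical
  obtain ⟨m, hm1, hm2⟩ := Order.exists_between_finsets A B h
  obtain ⟨m', hm1', hm2'⟩ := Order.exists_between_finsets (insert m A) B (by
    intro a ha b hb
    rw [Finset.mem_insert] at ha
    rcases ha with rfl | ha
    · exact hm2 b hb
    · exact h a ha b hb)
  obtain ⟨k, hk1, hk2, hk⟩ := hc n m m' (hm1' m (Finset.mem_insert_self _ _))
  exact ⟨k, hk, fun a ha => (hm1 a ha).trans hk1, fun b hb => hk2.trans (hm2' b hb)⟩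

/-- approximating a lower set by points of a given colour -/
lemma fin_lower {c : K → ℕ} (hc : DenseCol c) (n : ℕ) (Q : Set K)
    (hQ : ∀ i j, i < j → j ∈ Q → i ∈ Q) (G : Finset K) :
    ∃ k, c k = n ∧ ∀ j ∈ G, (j ∈ Q → j < k) ∧ (j ∉ Q → k < j) := by
  classical
  obtain ⟨k, hk, h1, h2⟩ := fin_between hc n (G.filter (· ∈ Q)) (G.filter (· ∉ Q)) (by
    intro a ha b hb
    rw [Finset.mem_filter] at ha hb
    rcases lt_trichotomy a b with h | h | h
    · exact h
    · subst h; exact absurd ha.2 hb.2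
    · exact absurd (hQ b a h ha.2) hb.2)
  refine ⟨k, hk, fun j hj => ⟨fun hj' => ?_, fun hj' => ?_⟩⟩
  · exact h1 j (Finset.mem_filter.2 ⟨hj, hj'⟩)
  · exact h2 j (Finset.mem_filter.2 ⟨hj, hj'⟩)

end between

section back_and_forth

variable {α β : Type} [LinearOrder α] [LinearOrder β]

/-- finite partial isomorphisms of coloured orders -/
def PI (c : α → ℕ) (d : β → ℕ) : Type :=
  { f : Finset (α × β) // (∀ p ∈ f, ∀ q ∈ f, cmp p.1 q.1 = cmp p.2 q.2) ∧ ∀ p ∈ f, d p.2 = c p.1 }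

instance (c : α → ℕ) (d : β → ℕ) : Preorder (PI c d) := Subtype.preorder _

instance (c : α → ℕ) (d : β → ℕ) : Inhabited (PI c d) := ⟨⟨∅, by simp⟩⟩

lemma across [DenselyOrdered β] [NoMinOrder β] [NoMaxOrder β] [Nonempty β] {d : β → ℕ}
    (hd : DenseCol d) (n : ℕ) (f : Finset (α × β))
    (hf : ∀ p ∈ f, ∀ q ∈ f, cmp p.1 q.1 = cmp p.2 q.2) (a : α) (h : ¬ ∃ b, (a, b) ∈ f) :
    ∃ b : β, d b = n ∧ ∀ p ∈ f, cmp p.1 a = cmp p.2 b := by
  classical
  have key : ∀ x ∈ (f.filter (fun p => p.1 < a)).image Prod.snd,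
      ∀ y ∈ (f.filter (fun p => a < p.1)).image Prod.snd, x < y := by
    intro x hx y hy
    rw [Finset.mem_image] at hx hy
    obtain ⟨p, hp1, rfl⟩ := hx
    obtain ⟨q, hq1, rfl⟩ := hy
    rw [Finset.mem_filter] at hp1 hq1
    rw [← lt_iff_lt_of_cmp_eq_cmp (hf _ hp1.1 _ hq1.1)]
    exact lt_trans hp1.right hq1.right
  obtain ⟨b, hn, hb⟩ := fin_between hd n _ _ key
  refine ⟨b, hn, ?_⟩
  rintro ⟨p1, p2⟩ hp
  have : p1 ≠ a := fun he ↦ h ⟨p2, he ▸ hp⟩
  rcases lt_or_gt_of_ne this with hl | hr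
  · have : p1 < a ∧ p2 < b :=
      ⟨hl, hb.1 _ (Finset.mem_image.mpr ⟨(p1, p2), Finset.mem_filter.mpr ⟨hp, hl⟩, rfl⟩)⟩
    rw [← cmp_eq_lt_iff, ← cmp_eq_lt_iff] at this
    exact this.1.trans this.2.symm
  · have : a < p1 ∧ b < p2 :=
      ⟨hr, hb.2 _ (Finset.mem_image.mpr ⟨(p1, p2), Finset.mem_filter.mpr ⟨hp, hr⟩, rfl⟩)⟩
    rw [← cmp_eq_gt_iff, ← cmp_eq_gt_iff] at this
    exact this.1.trans this.2.symm

/-- adding a pair -/
lemma extend {c : α → ℕ} {d : β → ℕ} (f : PI c d) (a : α) (b : β) (hb : d b = c a)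
    (h : ∀ p ∈ f.1, cmp p.1 a = cmp p.2 b) :
    ∃ g : PI c d, (a, b) ∈ g.1 ∧ f ≤ g := by
  classical
  refine ⟨⟨insert (a, b) f.1, ?_, ?_⟩, Finset.mem_insert_self _ _, ?_⟩
  · intro p hp q hq
    rw [Finset.mem_insert] at hp hq
    rcases hp with (rfl | pf) <;> rcases hq with (rfl | qf)
    · simp only [cmp_self_eq_eq]
    · rw [cmp_eq_cmp_symm]
      exact h _ qf
    · exact h _ pf
    · exact f.2.1 _ pf _ qf
  · intro p hp
    rw [Finset.mem_insert] at hp
    rcases hp with rfl | hp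
    · exact hb
    · exact f.2.2 p hp
  · exact (Finset.subset_insert _ _ : f.1 ⊆ insert (a, b) f.1)

variable {c : α → ℕ} {d : β → ℕ}

/-- the partial isomorphisms defined at `a` -/
def atLeft [DenselyOrdered β] [NoMinOrder β] [NoMaxOrder β] [Nonempty β] (hd : DenseCol d)
    (a : α) : Order.Cofinal (PI c d) where
  carrier := {f | ∃ b : β, (a, b) ∈ f.1}
  isCofinal := fun f => by
    by_cases h : ∃ b, (a, b) ∈ f.1
    · exact ⟨f, h, le_refl _⟩
    · obtain ⟨b, hb, hb'⟩ := across hd (c a) f.1 f.2.1 a h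
      obtain ⟨g, hg, hg'⟩ := extend f a b hb hb'
      exact ⟨g, ⟨b, hg⟩, hg'⟩

/-- the partial isomorphisms defined at `b` -/
def atRight [DenselyOrdered α] [NoMinOrder α] [NoMaxOrder α] [Nonempty α] (hc : DenseCol c)
    (b : β) : Order.Cofinal (PI c d) where
  carrier := {f | ∃ a : α, (a, b) ∈ f.1}
  isCofinal := fun f => by
    classical
    by_cases h : ∃ a, (a, b) ∈ f.1
    · exact ⟨f, h, le_refl _⟩
    · obtain ⟨a, ha, ha'⟩ := across (α := β) (β := α) hc (d b) (f.1.image Prod.swap) (by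
        intro p hp q hq
        rw [Finset.mem_image] at hp hq
        obtain ⟨p', hp', rfl⟩ := hp
        obtain ⟨q', hq', rfl⟩ := hq
        exact (f.2.1 p' hp' q' hq').symm) b (by
        rintro ⟨a, ha⟩
        rw [Finset.mem_image] at ha
        obtain ⟨p', hp', e⟩ := ha
        apply h
        refine ⟨a, ?_⟩
        rw [Prod.swap_eq_iff_eq_swap] at e
        rw [e] at hp'
        exact hp')
      obtain ⟨g, hg, hg'⟩ := extend f a b ha.symm (by
        intro p hp
        have := ha' p.swap (Finset.mem_image_of_mem _ hp)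
        exact this.symm)
      exact ⟨g, ⟨a, hg⟩, hg'⟩

/-- **Coloured Cantor theorem.** -/
theorem colored_cantor [Countable α] [DenselyOrdered α] [NoMinOrder α] [NoMaxOrder α]
    [Nonempty α] [Countable β] [DenselyOrdered β] [NoMinOrder β] [NoMaxOrder β] [Nonempty β]
    (hc : DenseCol c) (hd : DenseCol d) : ∃ e : α ≃o β, ∀ a, d (e a) = c a := by
  cases nonempty_encodable α
  cases nonempty_encodable β
  let T : α ⊕ β → Order.Cofinal (PI c d) := fun p => Sum.recOn p (atLeft hd) (atRight hc)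
  let J : Order.Ideal (PI c d) := Order.idealOfCofinals default T
  have hF : ∀ a, ∃ b, ∃ f ∈ J, (a, b) ∈ f.1 := by
    intro a
    obtain ⟨f, ⟨b, hb⟩, hf⟩ := Order.cofinal_meets_idealOfCofinals default T (Sum.inl a)
    exact ⟨b, f, hf, hb⟩
  have hG : ∀ b, ∃ a, ∃ f ∈ J, (a, b) ∈ f.1 := by
    intro b
    obtain ⟨f, ⟨a, ha⟩, hf⟩ := Order.cofinal_meets_idealOfCofinals default T (Sum.inr b)
    exact ⟨a, f, hf, ha⟩
  choose F hF using hF
  choose G hG using hG
  refine ⟨OrderIso.ofCmpEqCmp F G (fun a b => ?_), fun a => ?_⟩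
  · obtain ⟨f, hf, ha⟩ := hF a
    obtain ⟨g, hg, hb⟩ := hG b
    obtain ⟨m, _, fm, gm⟩ := J.directed _ hf _ hg
    exact m.2.1 (a, _) (fm ha) (_, b) (gm hb)
  · obtain ⟨f, hf, ha⟩ := hF a
    exact f.2.2 _ ha

end back_and_forth

section example_order

/-- the index order: pairs `(a, n)` ordered by `a + n √2` -/
def KK : Type := ℚ × ℕ

/-- position of an element of the index order -/
noncomputable def KK.pos (k : KK) : ℝ := (k.1 : ℝ) + k.2 * Real.sqrt 2

lemma KK.pos_inj : Function.Injective KK.pos := by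
  rintro ⟨a, m⟩ ⟨b, n⟩ h
  unfold KK.pos at h
  simp only at h
  have hmn : (m : ℤ) = n := by
    by_contra hne
    have h1 : ((m : ℝ) - n) * Real.sqrt 2 = b - a := by linarith
    have hne' : (m : ℝ) - n ≠ 0 := by
      intro h0
      apply hne
      have : (m : ℝ) = n := by linarith
      exact_mod_cast this
    have h2 : Real.sqrt 2 = (((b - a) / ((m : ℚ) - n) : ℚ) : ℝ) := by
      push_cast
      rw [eq_div_iff hne']
      linarith
    exact irrational_sqrt_two ⟨_, h2.symm⟩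
  have hmn' : m = n := by exact_mod_cast hmn
  subst hmn'
  have : (a : ℝ) = b := by linarith
  have : a = b := by exact_mod_cast this
  rw [this]

noncomputable instance : LinearOrder KK := LinearOrder.lift' KK.pos KK.pos_inj

instance : Countable KK := inferInstanceAs (Countable (ℚ × ℕ))

instance : Nonempty KK := ⟨((0 : ℚ), (0 : ℕ))⟩

/-- colour of an element of the index order -/
def KK.col (k : KK) : ℕ := k.2

lemma KK.lt_iff (a b : KK) : a < b ↔ a.pos < b.pos := Iff.rfl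

lemma KK.exists_between' (n : ℕ) {x y : ℝ} (h : x < y) :
    ∃ k : KK, x < k.pos ∧ k.pos < y ∧ k.col = n := by
  obtain ⟨q, hq1, hq2⟩ := exists_rat_btwn (show x - n * Real.sqrt 2 < y - n * Real.sqrt 2 by
    linarith)
  refine ⟨(q, n), ?_, ?_, rfl⟩
  · show x < (q : ℝ) + n * Real.sqrt 2
    linarith
  · show (q : ℝ) + n * Real.sqrt 2 < y
    linarith

lemma KK.dense : DenseCol KK.col := by
  intro n a b hab
  obtain ⟨k, h1, h2, h3⟩ := KK.exists_between' n hab
  exact ⟨k, h1, h2, h3⟩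

instance : DenselyOrdered KK := ⟨fun a b hab => by
  obtain ⟨k, h1, h2, _⟩ := KK.dense 0 a b hab
  exact ⟨k, h1, h2⟩⟩

instance : NoMinOrder KK := ⟨fun a => by
  obtain ⟨k, h1, h2, _⟩ := KK.exists_between' 0 (sub_one_lt a.pos)
  exact ⟨k, h2⟩⟩

instance : NoMaxOrder KK := ⟨fun a => by
  obtain ⟨k, h1, h2, _⟩ := KK.exists_between' 0 (lt_add_one a.pos)
  exact ⟨k, h1⟩⟩

end example_order

end ANC
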