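import Pool.Agent.helper28.AN.Eval

/-!
# Borel sets and isomorphism of countable labelled orders
-/

namespace ANC

open ANB Set Topology

set_option linter.unusedSectionVars false
set_option linter.unusedVariables false

section iso

variable {O : ℕ → Type} [∀ n, LinearOrder (O n)]

/-- the map of the sum given by automorphisms of the blocks and of the outer index -/
noncomputable def gmap (e : KK ≃o KK) (g : ∀ q r : KK, O r.col ≃o O r.col) (x : XX O) : XX O :=
  mkS (pr (e (ofLex (ofLex x).1).1) (ofLex (ofLex x).1).2)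
    ((g (ofLex (ofLex x).1).1 (ofLex (ofLex x).1).2).withTopCongr.withBotCongr (ofLex x).2)

lemma gmap_mk (e : KK ≃o KK) (g : ∀ q r : KK, O r.col ≃o O r.col) (q r : KK)
    (w : WithBot (WithTop (O r.col))) :
    gmap e g (mkS (β := Fa O) (pr q r) w) =
      mkS (β := Fa O) (pr (e q) r) ((g q r).withTopCongr.withBotCongr w) := rfl

lemma mk_eta (x : XX O) : ∃ (q r : KK) (w : WithBot (WithTop (O r.col))),
    x = mkS (β := Fa O) (pr q r) w :=
  ⟨(ofLex (ofLex x).1).1, (ofLex (ofLex x).1).2, (ofLex x).2, rfl⟩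

lemma gmap_strictMono (e : KK ≃o KK) (g : ∀ q r : KK, O r.col ≃o O r.col) :
    StrictMono (gmap e g) := by
  intro x y hxy
  obtain ⟨q, r, w, rfl⟩ := mk_eta x
  obtain ⟨q', r', w', rfl⟩ := mk_eta y
  rw [gmap_mk, gmap_mk]
  rcases lt_trichotomy q q' with hq | hq | hq
  · exact lt_of_idx (x := mkS (pr (e q) r) _) (y := mkS (pr (e q') r') _)
      (pr_lt_of_fst (e.lt_iff_lt.2 hq))
  · subst hq
    rcases lt_trichotomy r r' with hr | hr | hr
    · exact lt_of_idx (x := mkS (pr (e q) r) _) (y := mkS (pr (e q) r') _) (pr_lt_of_snd hr)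
    · subst hr
      have h1 : w < w' := (mk_lt_mk (β := Fa O) (i := pr q r)).1 hxy
      exact (mk_lt_mk (β := Fa O) (i := pr (e q) r)).2
        ((OrderIso.lt_iff_lt (g q r).withTopCongr.withBotCongr).2 h1)
    · exfalso
      have h1 : mkS (β := Fa O) (pr q r') w' < mkS (pr q r) w := lt_of_idx (pr_lt_of_snd hr)
      exact absurd h1 hxy.not_gt
  · exfalso
    have h1 : mkS (β := Fa O) (pr q' r') w' < mkS (pr q r) w := lt_of_idx (pr_lt_of_fst hq)
    exact absurd h1 hxy.not_gt

lemma mkS_congr {q q' r : KK} (h : q = q') (w : WithBot (WithTop (O r.col))) :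
    mkS (β := Fa O) (pr q r) w = mkS (β := Fa O) (pr q' r) w := by
  subst h; rfl

lemma gmap_surj (e : KK ≃o KK) (g : ∀ q r : KK, O r.col ≃o O r.col) :
    Function.Surjective (gmap e g) := by
  intro y
  obtain ⟨q, r, w, rfl⟩ := mk_eta y
  refine ⟨mkS (β := Fa O) (pr (e.symm q) r)
    ((g (e.symm q) r).withTopCongr.withBotCongr.symm w), ?_⟩
  have h1 : (g (e.symm q) r).withTopCongr.withBotCongr
      ((g (e.symm q) r).withTopCongr.withBotCongr.symm w) = w := OrderIso.apply_symm_apply _ _
  rw [gmap_mk]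
  exact (congrArg (mkS (β := Fa O) (pr (e (e.symm q)) r)) h1).trans
    (mkS_congr (e.apply_symm_apply q) w)

theorem iso_of (e : KK ≃o KK) (g : ∀ q r : KK, O r.col ≃o O r.col) (lam lam' : ∀ i, Fa O i → ℕ)
    (h : ∀ (q r : KK) (o : O r.col), lam' (pr (e q) r) (g q r o) = lam (pr q r) o) :
    ∃ G : XX O ≃o XX O, ∀ x, lab cII lam' (G x) = lab cII lam x := by
  refine ⟨StrictMono.orderIsoOfSurjective (gmap e g) (gmap_strictMono e g) (gmap_surj e g),
    fun x => ?_⟩
  show lab cII lam' (gmap e g x) = _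
  obtain ⟨q, r, w, rfl⟩ := mk_eta x
  rw [gmap_mk]
  induction w using WithBot.recBotCoe with
  | bot => rfl
  | coe w =>
    induction w using WithTop.recTopCoe with
    | top => rfl
    | coe o =>
      show Nat.pair r.col (lam' (pr (e q) r) (g q r o)) + 1 = Nat.pair r.col (lam (pr q r) o) + 1
      rw [h]

end iso

/-- data attached to a Borel set -/
structure Dat (B : Set (ℕ → Bool)) where
  O : Type
  [lin : LinearOrder O]
  [cnt : Countable O]
  [inf : Infinite O]
  L : (ℕ → Bool) → O → ℕ
  ℓ : Bool → O → ℕ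
  φp : Fm
  φm : Fm
  cont : ∀ o, Continuous fun x => L x o
  pos : ∀ x ∈ B, ∃ g : O ≃o O, ∀ o, ℓ true (g o) = L x o
  neg : ∀ x ∉ B, ∃ g : O ≃o O, ∀ o, ℓ false (g o) = L x o
  pp : (semO φp (ℓ true)).Nonempty
  pm : semO φp (ℓ false) = ∅
  mm : (semO φm (ℓ false)).Nonempty
  mp : semO φm (ℓ true) = ∅

attribute [instance] Dat.lin Dat.cnt Dat.inf

/-- complement -/
def Dat.compl {B : Set (ℕ → Bool)} (D : Dat B) : Dat Bᶜ where
  O := D.O
  L := D.L
  ℓ b := D.ℓ (!b)
  φp := D.φm
  φm := D.φp
  cont := D.cont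
  pos := fun x hx => D.neg x hx
  neg := fun x hx => D.pos x (by simpa using hx)
  pp := D.mm
  pm := D.mp
  mm := D.pp
  mp := D.pm

/-- clopen sets -/
noncomputable def Dat.clopen {B : Set (ℕ → Bool)} (hB : IsClopen B) : Dat B where
  O := ℕ
  L x _ := cond (B.boolIndicator x) 1 0
  ℓ b _ := cond b 1 0
  φp := .atom 1
  φm := .atom 0
  cont := fun _ => by
    have h1 : Continuous (B.boolIndicator) := (continuous_boolIndicator_iff_isClopen B).2 hB
    exact (continuous_of_discreteTopology (f := fun b : Bool => cond b (1 : ℕ) 0)).comp h1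
  pos := fun x hx => ⟨OrderIso.refl ℕ, fun o => by
    rw [(Set.mem_iff_boolIndicator B x).1 hx]⟩
  neg := fun x hx => ⟨OrderIso.refl ℕ, fun o => by
    rw [(Set.notMem_iff_boolIndicator B x).1 hx]⟩
  pp := ⟨ptO 0, 0, rfl, rfl⟩
  pm := by
    rw [eq_empty_iff_forall_notMem]
    rintro p ⟨x, hx, _⟩
    exact absurd hx (by simp)
  mm := ⟨ptO 0, 0, rfl, rfl⟩
  mp := by
    rw [eq_empty_iff_forall_notMem]
    rintro p ⟨x, hx, _⟩
    exact absurd hx (by simp)

section union

variable {B : ℕ → Set (ℕ → Bool)} (D : ∀ n, Dat (B n))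

/-- the orders -/
abbrev OO (n : ℕ) : Type := (D n).O

/-- the two target labellings of each order -/
def ll (n : ℕ) (b : Bool) : OO D n → ℕ := (D n).ℓ b

/-- labels of the copy of `x` -/
def lamL (x : ℕ → Bool) : ∀ i, Fa (OO D) i → ℕ := fun i o =>
  if (ofLex i).1.col = 0 then (D (cII i)).L x o
  else (D (cII i)).ℓ (decide (cII i + 1 = (ofLex i).1.col)) o

/-- positive pattern -/
def pip (q : KK) (n : ℕ) : Bool := decide (n = q.col - 1)
/-- negative pattern -/
def pim (q : KK) (n : ℕ) : Bool := decide (n + 1 = q.col)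

instance : Countable (XX (OO D)) := by
  have h1 : ∀ i : II, Countable (WithBot (WithTop (Fa (OO D) i))) := fun i =>
    inferInstanceAs (Countable (Option (Option (D (cII i)).O)))
  have h2 : Countable II := inferInstanceAs (Countable (KK × KK))
  exact inferInstanceAs (Countable (Σ i : II, WithBot (WithTop (Fa (OO D) i))))

instance : Infinite (XX (OO D)) := by
  refine Infinite.of_injective (fun q : KK => bt (β := Fa (OO D)) (pr q q)) ?_
  intro q q' h
  have h1 : pr q q = pr q' q' := congrArg idx h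
  have h2 : (ofLex (pr q q)).1 = (ofLex (pr q' q')).1 := by rw [h1]
  exact h2

lemma dense_pip : DenseCol (fun q : KK => q.col - 1) := by
  intro n a b hab
  obtain ⟨k, h1, h2, h3⟩ := KK.dense (n + 1) a b hab
  exact ⟨k, h1, h2, by simp only [h3]; omega⟩

lemma dense_j (j : ℕ) : DenseCol (fun q : KK => if q.col = 0 then j else q.col - 1) := by
  intro n a b hab
  obtain ⟨k, h1, h2, h3⟩ := KK.dense (n + 1) a b hab
  refine ⟨k, h1, h2, ?_⟩
  simp only [h3]
  rw [if_neg (by omega)]; omega

lemma union_neg {x : ℕ → Bool} (hx : ∀ n, x ∉ B n) : ∃ G : XX (OO D) ≃o XX (OO D),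
    ∀ o, lab cII (lamP (ll D) pim) (G o) = lab cII (lamL D x) o := by
  choose g hg using fun n => (D n).neg x (hx n)
  refine iso_of (OrderIso.refl KK)
    (fun q r => if q.col = 0 then g r.col else OrderIso.refl _) _ _ ?_
  intro q r o
  by_cases hq : q.col = 0
  · have e1 : lamL D x (pr q r) o = (D r.col).L x o := by
      unfold lamL
      exact if_pos hq
    rw [e1]
    simp only [hq, if_true]
    rw [← hg r.col o]
    show (D r.col).ℓ (decide (r.col + 1 = q.col)) (g r.col o) = _
    rw [hq]
    simp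
  · have e1 : lamL D x (pr q r) o = (D r.col).ℓ (decide (r.col + 1 = q.col)) o := by
      unfold lamL
      exact if_neg hq
    rw [e1]
    simp only [hq, if_false]
    rfl

lemma union_pos {x : ℕ → Bool} {j : ℕ} (hj : x ∈ B j) (hx : ∀ n, n ≠ j → x ∉ B n) :
    ∃ G : XX (OO D) ≃o XX (OO D),
      ∀ o, lab cII (lamP (ll D) pip) (G o) = lab cII (lamL D x) o := by
  have h1 : ∀ n, ∃ g : OO D n ≃o OO D n, ∀ o, (D n).ℓ (decide (n = j)) (g o) = (D n).L x o := by
    intro n
    by_cases hn : n = j
    · subst hn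
      simp only [decide_true]
      exact (D n).pos x hj
    · simp only [hn, decide_false]
      exact (D n).neg x (hx n hn)
  choose g hg using h1
  obtain ⟨e, he⟩ := colored_cantor (dense_j j) dense_pip
  refine iso_of e (fun q r => if q.col = 0 then g r.col else OrderIso.refl _) _ _ ?_
  intro q r o
  have he' : (e q).col - 1 = if q.col = 0 then j else q.col - 1 := he q
  show (D r.col).ℓ (decide (r.col = (e q).col - 1))
    ((if q.col = 0 then g r.col else OrderIso.refl (OO D r.col)) o) = _
  rw [he']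
  by_cases hq : q.col = 0
  · have e1 : lamL D x (pr q r) o = (D r.col).L x o := by
      unfold lamL
      exact if_pos hq
    rw [e1]
    simp only [hq, if_true]
    exact hg r.col o
  · have e1 : lamL D x (pr q r) o = (D r.col).ℓ (decide (r.col + 1 = q.col)) o := by
      unfold lamL
      exact if_neg hq
    rw [e1]
    simp only [hq, if_false]
    have e3 : decide (r.col = q.col - 1) = decide (r.col + 1 = q.col) := by
      rw [decide_eq_decide]; omega
    rw [e3]
    rfl

/-- countable disjoint unions -/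
noncomputable def Dat.iUnion (hd : Pairwise (Function.onFun Disjoint B)) : Dat (⋃ n, B n) where
  O := XX (OO D)
  L x := lab cII (lamL D x)
  ℓ b := lab cII (lamP (ll D) (cond b pip pim))
  φp := FmP (fun n => (D n).φp)
  φm := FmM (fun n => (D n).φp)
  cont := fun o => by
    rcases cases_el o with h | h | ⟨o', h⟩
    · rw [h]
      exact continuous_const
    · rw [h]
      exact continuous_const
    · rw [h]
      show Continuous fun x => Nat.pair (cII (idx o)) (lamL D x (idx o) o') + 1
      have h1 : Continuous fun x => lamL D x (idx o) o' := by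
        unfold lamL
        by_cases hc : (ofLex (idx o)).1.col = 0
        · simp only [hc, if_true]
          exact (D (cII (idx o))).cont o'
        · simp only [hc, if_false]
          exact continuous_const
      exact (continuous_of_discreteTopology
        (f := fun m : ℕ => Nat.pair (cII (idx o)) m + 1)).comp h1
  pos := fun x hx => by
    rw [mem_iUnion] at hx
    obtain ⟨j, hj⟩ := hx
    refine union_pos D hj fun n hn hxn => ?_
    exact Set.disjoint_left.1 (hd hn) hxn hj
  neg := fun x hx => by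
    rw [mem_iUnion] at hx
    push Not at hx
    exact union_neg D hx
  pp := (eval_pos (fun n => (D n).pp) pip (fun q => ⟨q.col - 1, by simp [pip]⟩)
    (fun n => ⟨n + 1, fun q hq => by simp [pip, hq]⟩)).2
  pm := (eval_neg (fun n => (D n).pm) pim 0 (fun q hq n => by simp [pim, hq])
    (fun q => ⟨q.col, by simp [pim]⟩)).2
  mm := (eval_neg (fun n => (D n).pm) pim 0 (fun q hq n => by simp [pim, hq])
    (fun q => ⟨q.col, by simp [pim]⟩)).1
  mp := (eval_pos (fun n => (D n).pp) pip (fun q => ⟨q.col - 1, by simp [pip]⟩)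
    (fun n => ⟨n + 1, fun q hq => by simp [pip, hq]⟩)).1

end union

lemma measurable_eq_generateFrom : (inferInstance : MeasurableSpace (ℕ → Bool)) =
    MeasurableSpace.generateFrom {t : Set (ℕ → Bool) | IsClopen t} := by
  apply le_antisymm
  · refine iSup_le fun n => ?_
    rintro s ⟨t, _, rfl⟩
    refine MeasurableSpace.measurableSet_generateFrom ?_
    exact (isClopen_discrete t).preimage (continuous_apply n)
  · refine MeasurableSpace.generateFrom_le fun t ht => ?_
    exact ht.isOpen.measurableSet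

theorem exists_dat (B : Set (ℕ → Bool)) (hB : MeasurableSet B) : Nonempty (Dat B) := by
  refine MeasurableSpace.induction_on_inter (C := fun B _ => Nonempty (Dat B))
    measurable_eq_generateFrom ?_ ?_ ?_ ?_ ?_ B hB
  · intro s hs t ht _
    exact IsClopen.inter hs ht
  · exact ⟨Dat.clopen isClopen_empty⟩
  · exact fun t ht => ⟨Dat.clopen ht⟩
  · rintro t _ ⟨D⟩
    exact ⟨D.compl⟩
  · intro f hd _ h
    exact ⟨Dat.iUnion (fun n => (h n).some) hd⟩

/-- **Borel sets reduce to isomorphism of countable labelled linear orders whose two classes are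
separated by an infinitary topological formula.** -/
theorem comb_order (B : Set (ℕ → Bool)) (hB : MeasurableSet B) :
    ∃ (O : Type) (_ : LinearOrder O) (_ : Countable O) (_ : Infinite O)
      (L : (ℕ → Bool) → O → ℕ) (ℓp ℓm : O → ℕ) (φp φm : Fm),
      (∀ o, Continuous fun x => L x o) ∧
      (∀ x ∈ B, ∃ g : O ≃o O, ∀ o, ℓp (g o) = L x o) ∧
      (∀ x ∉ B, ∃ g : O ≃o O, ∀ o, ℓm (g o) = L x o) ∧
      (semO φp ℓp).Nonempty ∧ semO φp ℓm = ∅ ∧ (semO φm ℓm).Nonempty ∧ semO φm ℓp = ∅ := by
  obtain ⟨D⟩ := exists_dat B hB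
  exact ⟨D.O, D.lin, D.cnt, D.inf, D.L, D.ℓ true, D.ℓ false, D.φp, D.φm, D.cont, D.pos, D.neg,
    D.pp, D.pm, D.mm, D.mp⟩

end ANC
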