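import Pool.Agent.helper28.AN.Sum
import Pool.Agent.helper28.AN.Cantor

/-!
# Evaluation of formulas in sums of labelled orders
-/

namespace ANC

open ANB Set Topology

set_option linter.unusedSectionVars false

section labels

variable {I : Type} [LinearOrder I] {β : I → Type} [∀ i, LinearOrder (β i)]

/-- labels of a block -/
def labW {γ : Type} (n : ℕ) (lam : γ → ℕ) (w : WithBot (WithTop γ)) : ℕ :=
  WithBot.recBotCoe 0 (fun w' => WithTop.recTopCoe 0 (fun o => Nat.pair n (lam o) + 1) w') w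

/-- labels of the sum -/
def lab (cI : I → ℕ) (lam : ∀ i, β i → ℕ) (x : SS β) : ℕ :=
  labW (cI (ofLex x).1) (lam (ofLex x).1) (ofLex x).2

variable (cI : I → ℕ) (lam : ∀ i, β i → ℕ)

@[simp] lemma lab_bt (i : I) : lab cI lam (bt i) = 0 := rfl
@[simp] lemma lab_tp (i : I) : lab cI lam (tp i) = 0 := rfl
@[simp] lemma lab_el (i : I) (o : β i) : lab cI lam (el i o) = Nat.pair (cI i) (lam i o) + 1 := rfl

lemma ptO_inj {O : Type} [LinearOrder O] {x y : O} (h : ptO x = ptO y) : x = y := by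
  have h1 : (ptO x).1.2 x = true := by rw [ptO_snd]; simp
  rw [h, ptO_snd, decide_eq_true_eq] at h1
  exact h1

lemma res_ptO (i : I) (o : β i) : res i (ptO (el i o)) = ptO o := by
  apply eq_ptO
  show (ptO (el i o)).1.2 (el i o) = true
  rw [ptO_snd]; simp

lemma marks_iff {i : I} {s : Pt (SS β)} (hs : s ∈ U i) (l : ℕ) :
    s ∈ marksO (lab cI lam) (Nat.pair (cI i) l + 1) ↔ res i s ∈ marksO (lam i) l := by
  constructor
  · rintro ⟨x, hx, rfl⟩
    obtain ⟨o, rfl⟩ := ptO_mem_U hs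
    rw [lab_el] at hx
    have h1 : Nat.pair (cI i) (lam i o) = Nat.pair (cI i) l := by omega
    rw [Nat.pair_eq_pair] at h1
    exact ⟨o, h1.2, res_ptO i o⟩
  · rintro ⟨o, ho, h⟩
    have h1 : (res i s).1.2 o = true := by rw [h, ptO_snd]; simp
    have h2 : s = ptO (el i o) := eq_ptO h1
    exact ⟨el i o, by rw [lab_el, ho], h2⟩

/-- relabelled formula -/
def rl (n : ℕ) (φ : Fm) : Fm := relab (fun l => Nat.pair n l + 1) φ

lemma rl_local {i : I} {s : Pt (SS β)} (hs : s ∈ U i) (φ : Fm) :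
    s ∈ (rl (cI i) φ).sem (marksO (lab cI lam)) ↔ res i s ∈ semO φ (lam i) := by
  unfold rl semO
  rw [sem_relab]
  exact sem_local (U i) (res i) _ _ (fun s hs l => marks_iff cI lam hs l)
    (fun A A' h => closure_local i A A' h) φ s hs

/-- all elements of colour `n` -/
def EE (n : ℕ) : Fm := .union (fun l => .atom (Nat.pair n l + 1))

lemma mem_EE {n : ℕ} {s : Pt (SS β)} : s ∈ (EE n).sem (marksO (lab cI lam)) ↔
    ∃ i o, cI i = n ∧ s = ptO (el i o) := by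
  unfold EE
  simp only [Fm.sem, mem_iUnion]
  constructor
  · rintro ⟨l, x, hx, rfl⟩
    rcases cases_el x with h1 | h1 | ⟨o, h1⟩
    · rw [h1, lab_bt] at hx; omega
    · rw [h1, lab_tp] at hx; omega
    · have h2 : lab cI lam (el (idx x) o) = Nat.pair n l + 1 := by rw [← h1]; exact hx
      rw [lab_el] at h2
      have h3 : Nat.pair (cI (idx x)) (lam (idx x) o) = Nat.pair n l := by omega
      rw [Nat.pair_eq_pair] at h3
      exact ⟨idx x, o, h3.1, by rw [← h1]⟩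
  · rintro ⟨i, o, rfl, rfl⟩
    exact ⟨lam i o, el i o, rfl, rfl⟩

lemma rl_subset (n : ℕ) (φ : Fm) :
    (rl n φ).sem (marksO (lab cI lam)) ⊆ closure ((EE n).sem (marksO (lab cI lam))) := by
  unfold rl
  rw [sem_relab]
  exact sem_subset_closure _ φ

lemma col_of_closure {i : I} {s : Pt (SS β)} (hs : s ∈ U i) {n : ℕ}
    (h : s ∈ closure ((EE n).sem (marksO (lab cI lam)))) : cI i = n := by
  rw [mem_closure_iff] at h
  obtain ⟨s', hs', h'⟩ := h _ (isOpen_U i) hs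
  obtain ⟨j, o, hj, rfl⟩ := (mem_EE cI lam).1 h'
  rw [U_disjoint hs' (ptO_el_mem j o)]
  exact hj

lemma not_closure_zero {i : I} {s : Pt (SS β)} (hs : s ∈ U i) :
    s ∉ closure (marksO (lab cI lam) 0) := by
  intro h
  rw [mem_closure_iff] at h
  obtain ⟨s', hs', x, hx, rfl⟩ := h _ (isOpen_U i) hs
  obtain ⟨o, rfl⟩ := ptO_mem_U hs'
  rw [lab_el] at hx
  omega

lemma sep_not_closure {x : SS β} (hx : lab cI lam x = 0) (n : ℕ) :
    ptO x ∉ closure ((EE n).sem (marksO (lab cI lam))) := by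
  intro h
  rw [mem_closure_iff_agr] at h
  obtain ⟨s, hs, h'⟩ := h {x}
  obtain ⟨j, o, hj, rfl⟩ := (mem_EE cI lam).1 hs
  have h1 := (h' x (Finset.mem_singleton_self x)).2
  rw [ptO_snd, ptO_snd] at h1
  simp only [decide_true, decide_eq_true_eq] at h1
  rw [h1, lab_el] at hx
  omega

lemma loc_bt (i : I) : Loc i (ptO (bt (β := β) i)) := by
  intro x
  constructor
  · intro h
    have h1 : x < bt i := lt_of_idx (y := bt i) h
    rw [ptO_fst, ptO_snd]
    simp [h1, h1.ne]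
  · intro h
    have h1 : bt i < x := lt_of_idx (x := bt i) h
    rw [ptO_fst, ptO_snd]
    simp [h1.le, h1.ne']

/-- relabelled formula without the separators -/
def Ps (n : ℕ) (φ : Fm) : Fm := .diff (rl n φ) (.cl (.atom 0))

lemma mem_Ps_of {i : I} {s : Pt (SS β)} (hs : s ∈ U i) {φ : Fm}
    (h : res i s ∈ semO φ (lam i)) : s ∈ (Ps (cI i) φ).sem (marksO (lab cI lam)) :=
  ⟨(rl_local cI lam hs φ).2 h, not_closure_zero cI lam hs⟩

lemma of_mem_Ps (hreg : ∀ p : Pt (SS β), Reg p → p ∈ closure (marksO (lab cI lam) 0))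
    {n : ℕ} {s : Pt (SS β)} {φ : Fm} (h : s ∈ (Ps n φ).sem (marksO (lab cI lam))) :
    ∃ i, s ∈ U i ∧ cI i = n ∧ res i s ∈ semO φ (lam i) := by
  obtain ⟨h1, h2⟩ := h
  have h2' : s ∉ closure (marksO (lab cI lam) 0) := h2
  rcases trichotomy s with ⟨i, hi⟩ | ⟨i, hi | hi⟩ | hr
  · have hc := col_of_closure cI lam hi (rl_subset cI lam n φ h1)
    subst hc
    exact ⟨i, hi, rfl, (rl_local cI lam hi φ).1 h1⟩
  · exact (h2' (subset_closure (⟨bt i, rfl, hi⟩ : s ∈ marksO (lab cI lam) 0))).elim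
  · exact (h2' (subset_closure (⟨tp i, rfl, hi⟩ : s ∈ marksO (lab cI lam) 0))).elim
  · exact absurd (hreg s hr) h2'

lemma Ps_subset (n : ℕ) (φ : Fm) :
    (Ps n φ).sem (marksO (lab cI lam)) ⊆ closure ((EE n).sem (marksO (lab cI lam))) :=
  fun _ h => rl_subset cI lam n φ h.1

end labels

/-! ### The index order -/

/-- the index order -/
abbrev II : Type := KK ×ₗ KK

/-- pairs of indices -/
def pr (q r : KK) : II := toLex (q, r)

/-- the colour of an index -/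
def cII (i : II) : ℕ := (ofLex i).2.col

lemma pr_eta (i : II) : i = pr (ofLex i).1 (ofLex i).2 := rfl

lemma pr_lt_of_fst {q q' r r' : KK} (h : q < q') : pr q r < pr q' r' :=
  Prod.Lex.toLex_lt_toLex.2 (Or.inl h)

lemma pr_lt_of_snd {q r r' : KK} (h : r < r') : pr q r < pr q r' :=
  Prod.Lex.toLex_lt_toLex.2 (Or.inr ⟨rfl, h⟩)

lemma inner_approx (Q : Set II) (hQ : ∀ i j, i < j → j ∈ Q → i ∈ Q) {q r1 r2 : KK}
    (h1 : pr q r1 ∈ Q) (h2 : pr q r2 ∉ Q) (n : ℕ) (G : Finset II) :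
    ∃ r : KK, r.col = n ∧ ∀ j ∈ G, (j ∈ Q → j < pr q r) ∧ (j ∉ Q → pr q r < j) := by
  classical
  obtain ⟨r, hr, h⟩ := fin_lower KK.dense n {r | pr q r ∈ Q}
    (fun i j hij hj => hQ _ _ (pr_lt_of_snd hij) hj) (G.image (fun i => (ofLex i).2))
  refine ⟨r, hr, fun j hj => ?_⟩
  have h3 := h (ofLex j).2 (Finset.mem_image_of_mem _ hj)
  rcases lt_trichotomy (ofLex j).1 q with hq | hq | hq
  · refine ⟨fun _ => ?_, fun hn => ?_⟩
    · rw [pr_eta j]; exact pr_lt_of_fst hq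
    · exfalso
      apply hn
      refine hQ _ _ ?_ h1
      rw [pr_eta j]; exact pr_lt_of_fst hq
  · have e : j = pr q (ofLex j).2 := by rw [← hq]; rfl
    refine ⟨fun hn => ?_, fun hn => ?_⟩
    · have : (ofLex j).2 ∈ {r | pr q r ∈ Q} := by
        show pr q (ofLex j).2 ∈ Q
        rw [← e]; exact hn
      rw [e]; exact pr_lt_of_snd (h3.1 this)
    · have : (ofLex j).2 ∉ {r | pr q r ∈ Q} := by
        show ¬ (pr q (ofLex j).2 ∈ Q)
        rw [← e]; exact hn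
      rw [e]; exact pr_lt_of_snd (h3.2 this)
  · refine ⟨fun hn => ?_, fun _ => ?_⟩
    · exfalso
      apply h2
      refine hQ _ _ ?_ hn
      rw [pr_eta j]; exact pr_lt_of_fst hq
    · rw [pr_eta j]; exact pr_lt_of_fst hq

lemma outer_approx (Q : Set II) (hQ : ∀ i j, i < j → j ∈ Q → i ∈ Q)
    (h : ∀ q r r' : KK, pr q r ∈ Q → pr q r' ∈ Q) (m : ℕ) (G : Finset II) :
    ∃ q : KK, q.col = m ∧ ∀ r, ∀ j ∈ G, (j ∈ Q → j < pr q r) ∧ (j ∉ Q → pr q r < j) := by
  classical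
  obtain ⟨q, hq, h'⟩ := fin_lower KK.dense m {q | ∃ r, pr q r ∈ Q}
    (by
      rintro i j hij ⟨r, hr⟩
      exact ⟨r, hQ _ _ (pr_lt_of_fst hij) hr⟩) (G.image (fun i => (ofLex i).1))
  refine ⟨q, hq, fun r j hj => ?_⟩
  have h3 := h' (ofLex j).1 (Finset.mem_image_of_mem _ hj)
  refine ⟨fun hn => ?_, fun hn => ?_⟩
  · rw [pr_eta j]
    exact pr_lt_of_fst (h3.1 ⟨(ofLex j).2, hn⟩)
  · rw [pr_eta j]
    refine pr_lt_of_fst (h3.2 ?_)
    rintro ⟨r', hr'⟩
    exact hn (h _ _ _ hr')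

section two

variable {O : ℕ → Type} [∀ n, LinearOrder (O n)] [∀ n, Nonempty (O n)]

/-- the family of orders -/
abbrev Fa (O : ℕ → Type) : II → Type := fun i => O (cII i)

/-- the order of the union step -/
abbrev XX (O : ℕ → Type) : Type := SS (Fa O)

/-- lower set of a point -/
def QQ (p : Pt (XX O)) : Set II := {i | p.1.1 (bt i) = true}

lemma QQ_lower (p : Pt (XX O)) : ∀ i j, i < j → j ∈ QQ p → i ∈ QQ p :=
  fun i j hij hj => p.2.1 _ _ (lt_of_idx (x := bt i) (y := bt j) hij) hj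

lemma not_mem_QQ {p : Pt (XX O)} {i : II} : i ∉ QQ p ↔ p.1.1 (bt i) = false := by
  unfold QQ
  simp

/-- a cut inside the copy `q` -/
def Inn (p : Pt (XX O)) (q : KK) : Prop := Reg p ∧ (∃ r, pr q r ∈ QQ p) ∧ ∃ r, pr q r ∉ QQ p

/-- a cut between copies -/
def Out (p : Pt (XX O)) : Prop := Reg p ∧ ∀ q r r' : KK, pr q r ∈ QQ p → pr q r' ∈ QQ p

lemma inn_or_out {p : Pt (XX O)} (hp : Reg p) : (∃ q, Inn p q) ∨ Out p := by
  by_cases h : ∃ q, Inn p q
  · exact Or.inl h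
  · refine Or.inr ⟨hp, fun q r r' hr => ?_⟩
    by_contra hr'
    exact h ⟨q, hp, ⟨r, hr⟩, ⟨r', hr'⟩⟩

lemma inn_acc {p : Pt (XX O)} {q : KK} (hp : Inn p q) (n : ℕ) (A : Set (Pt (XX O)))
    (h : ∀ r : KK, r.col = n → ∃ s ∈ A, Loc (pr q r) s) : p ∈ closure A := by
  obtain ⟨hr, ⟨r1, h1⟩, ⟨r2, h2⟩⟩ := hp
  apply acc hr
  intro G
  obtain ⟨r, hrn, hG⟩ := inner_approx (QQ p) (QQ_lower p) h1 h2 n G
  refine ⟨pr q r, fun j hj => ⟨fun hb => (hG j hj).1 hb, fun hb => (hG j hj).2 ?_⟩, h r hrn⟩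
  rw [not_mem_QQ]; exact hb

lemma out_acc {p : Pt (XX O)} (hp : Out p) (m : ℕ) (A : Set (Pt (XX O)))
    (h : ∀ q : KK, q.col = m → ∃ r, ∃ s ∈ A, Loc (pr q r) s) : p ∈ closure A := by
  obtain ⟨hr, h1⟩ := hp
  apply acc hr
  intro G
  obtain ⟨q, hq, hG⟩ := outer_approx (QQ p) (QQ_lower p) h1 m G
  obtain ⟨r, hs⟩ := h q hq
  refine ⟨pr q r, fun j hj => ⟨fun hb => (hG r j hj).1 hb, fun hb => (hG r j hj).2 ?_⟩, hs⟩
  rw [not_mem_QQ]; exact hb

variable (lam : ∀ i, Fa O i → ℕ)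

lemma reg_closure_zero (p : Pt (XX O)) (hp : Reg p) : p ∈ closure (marksO (lab cII lam) 0) := by
  rcases inn_or_out hp with ⟨q, h⟩ | h
  · exact inn_acc h 0 _ fun r _ => ⟨ptO (bt (pr q r)), ⟨_, rfl, rfl⟩, loc_bt _⟩
  · exact out_acc h 0 _ fun q _ => ⟨q, ptO (bt (pr q q)), ⟨_, rfl, rfl⟩, loc_bt _⟩

lemma inn_EE {p : Pt (XX O)} {q : KK} (hp : Inn p q) (n : ℕ) :
    p ∈ closure ((EE n).sem (marksO (lab cII lam))) := by
  refine inn_acc hp n _ fun r hr => ?_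
  subst hr
  obtain ⟨o⟩ := (inferInstance : Nonempty (O r.col))
  refine ⟨ptO (el (pr q r) (o : Fa O (pr q r))), ?_, loc_of_U (ptO_el_mem _ _)⟩
  rw [mem_EE]
  exact ⟨pr q r, o, rfl, rfl⟩

/-- labels given by a pattern -/
def lamP (ℓ : ∀ n, Bool → O n → ℕ) (π : KK → ℕ → Bool) : ∀ i, Fa O i → ℕ :=
  fun i o => ℓ (cII i) (π (ofLex i).1 (cII i)) o

variable (ℓ : ∀ n, Bool → O n → ℕ) (π : KK → ℕ → Bool) (φ : ℕ → Fm)

lemma Ps_mem_of_true (h : ∀ n, (semO (φ n) (ℓ n true)).Nonempty) {q r : KK}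
    (hπ : π q r.col = true) : ∃ s ∈ (Ps r.col (φ r.col)).sem (marksO (lab cII (lamP ℓ π))),
      Loc (pr q r) s := by
  have e : lamP ℓ π (pr q r) = ℓ r.col true := by
    funext o
    show ℓ r.col (π q r.col) o = ℓ r.col true o
    rw [hπ]
  obtain ⟨t, ht⟩ : (semO (φ r.col) (lamP ℓ π (pr q r))).Nonempty := by
    rw [e]; exact h r.col
  refine ⟨emb (pr q r) t, ?_, loc_of_U (emb_mem _ _)⟩
  refine mem_Ps_of cII (lamP ℓ π) (emb_mem (pr q r) t) ?_
  rw [res_emb]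
  exact ht

lemma inn_Ps_true (h : ∀ n, (semO (φ n) (ℓ n true)).Nonempty) {p : Pt (XX O)} {q : KK}
    (hp : Inn p q) {n : ℕ} (hπ : π q n = true) :
    p ∈ closure ((Ps n (φ n)).sem (marksO (lab cII (lamP ℓ π)))) := by
  refine inn_acc hp n _ fun r hr => ?_
  subst hr
  exact Ps_mem_of_true ℓ π φ h hπ

lemma out_Ps (h : ∀ n, (semO (φ n) (ℓ n true)).Nonempty) {p : Pt (XX O)}
    (hp : Out p) {n m : ℕ} (hπ : ∀ q : KK, q.col = m → π q n = true) :
    p ∈ closure ((Ps n (φ n)).sem (marksO (lab cII (lamP ℓ π)))) := by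
  refine out_acc hp m _ fun q hq => ?_
  obtain ⟨r, hr, _⟩ := fin_between KK.dense n ∅ ∅ (by simp)
  subst hr
  exact ⟨r, Ps_mem_of_true ℓ π φ h (hπ q hq)⟩

lemma inn_Ps_false (h : ∀ n, semO (φ n) (ℓ n false) = ∅) {p : Pt (XX O)} {q : KK}
    (hp : Inn p q) {n : ℕ} (hπ : π q n = false) :
    p ∉ closure ((Ps n (φ n)).sem (marksO (lab cII (lamP ℓ π)))) := by
  classical
  intro hc
  rw [mem_closure_iff_agr] at hc
  obtain ⟨hr, ⟨r1, h1⟩, ⟨r2, h2⟩⟩ := hp
  obtain ⟨s, hs, hs'⟩ := hc {bt (pr q r1), bt (pr q r2)}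
  obtain ⟨i, hi, hin, hsem⟩ := of_mem_Ps cII (lamP ℓ π) (reg_closure_zero _) hs
  have e1 : s.1.1 (bt (pr q r1)) = true := (hs' _ (by simp)).1.trans h1
  have e2 : s.1.1 (bt (pr q r2)) = false := (hs' _ (by simp)).1.trans (not_mem_QQ.1 h2)
  have l1 : pr q r1 ≤ i := by
    by_contra hcon
    push Not at hcon
    have := ((loc_of_U hi (bt (pr q r1))).2 hcon).1
    rw [e1] at this
    exact absurd this (by simp)
  have l2 : i ≤ pr q r2 := by
    by_contra hcon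
    push Not at hcon
    have := ((loc_of_U hi (bt (pr q r2))).1 hcon).1
    rw [e2] at this
    exact absurd this (by simp)
  have hq : (ofLex i).1 = q := by
    apply le_antisymm
    · by_contra hcon
      push Not at hcon
      exact absurd (pr_lt_of_fst hcon) (not_lt.2 l2)
    · by_contra hcon
      push Not at hcon
      exact absurd (pr_lt_of_fst hcon) (not_lt.2 l1)
  subst hin
  have e : lamP ℓ π i = ℓ (cII i) false := by
    funext o
    show ℓ (cII i) (π (ofLex i).1 (cII i)) o = ℓ (cII i) false o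
    rw [hq, hπ]
  rw [e, h] at hsem
  exact hsem

/-- the formula: some copy has only false entries -/
def FmM (φ : ℕ → Fm) : Fm :=
  .diff (.inter fun n => .cl (EE n)) (.union fun n => .cl (Ps n (φ n)))

/-- the formula: no copy has only false entries -/
def FmP (φ : ℕ → Fm) : Fm := .diff (.inter fun n => .cl (Ps n (φ n))) (.cl (FmM φ))

lemma reg_of_all {p : Pt (XX O)} (h : ∀ n, p ∈ closure ((EE n).sem (marksO (lab cII lam)))) :
    Reg p := by
  rcases trichotomy p with ⟨i, hi⟩ | ⟨i, hi | hi⟩ | hr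
  · have h1 := col_of_closure cII lam hi (h (cII i + 1))
    omega
  · exact absurd (h 0) (by rw [hi]; exact sep_not_closure cII lam rfl 0)
  · exact absurd (h 0) (by rw [hi]; exact sep_not_closure cII lam rfl 0)
  · exact hr

lemma mem_FmM {p : Pt (XX O)} : p ∈ semO (FmM φ) (lab cII lam) ↔
    (∀ n, p ∈ closure ((EE n).sem (marksO (lab cII lam)))) ∧
      ∀ n, p ∉ closure ((Ps n (φ n)).sem (marksO (lab cII lam))) := by
  unfold semO FmM
  simp only [Fm.sem]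
  constructor
  · rintro ⟨h1, h2⟩
    rw [mem_iInter] at h1
    rw [mem_iUnion] at h2
    push Not at h2
    exact ⟨h1, h2⟩
  · rintro ⟨h1, h2⟩
    refine ⟨mem_iInter.2 h1, ?_⟩
    rw [mem_iUnion]
    push Not
    exact h2

lemma mem_FmP {p : Pt (XX O)} : p ∈ semO (FmP φ) (lab cII lam) ↔
    (∀ n, p ∈ closure ((Ps n (φ n)).sem (marksO (lab cII lam)))) ∧
      p ∉ closure (semO (FmM φ) (lab cII lam)) := by
  unfold semO FmP
  constructor
  · rintro ⟨h1, h2⟩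
    exact ⟨fun n => mem_iInter.1 h1 n, h2⟩
  · rintro ⟨h1, h2⟩
    exact ⟨mem_iInter.2 h1, h2⟩

/-- the first point -/
def p0 : Pt (XX O) := ⟨(fun _ => false, fun _ => false), by simp [Pt]⟩

lemma p0_out : Out (p0 (O := O)) := by
  refine ⟨⟨fun _ => rfl, fun _ => rfl⟩, fun q r r' hr => ?_⟩
  exact absurd hr (by simp [QQ, p0])

/-- the cut just below the block `i` -/
noncomputable def pcut (i : II) : Pt (XX O) := ⟨(fun x => decide (idx x < i), fun _ => false), by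
  refine ⟨fun a b hab hb => ?_, fun x hx => absurd hx (by simp)⟩
  simp only [decide_eq_true_eq] at hb ⊢
  exact lt_of_le_of_lt (idx_mono hab.le) hb⟩

lemma pcut_fst (i : II) (x : XX O) : (pcut i).1.1 x = decide (idx x < i) := rfl

lemma pcut_reg (i : II) : Reg (pcut (O := O) i) := ⟨fun _ => rfl, fun _ => rfl⟩

lemma pcut_loc (i : II) : Loc i (pcut (O := O) i) := by
  intro x
  constructor
  · intro h
    refine ⟨?_, rfl⟩
    rw [pcut_fst]; simp [h]
  · intro h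
    refine ⟨?_, rfl⟩
    rw [pcut_fst]; simp [h.le]

lemma pcut_inn (q r : KK) : Inn (pcut (O := O) (pr q r)) q := by
  refine ⟨pcut_reg _, ?_, ?_⟩
  · obtain ⟨r', hr'⟩ := exists_lt r
    refine ⟨r', ?_⟩
    show (pcut (pr q r)).1.1 (bt (pr q r')) = true
    rw [pcut_fst]
    exact decide_eq_true (pr_lt_of_snd hr')
  · refine ⟨r, ?_⟩
    rw [not_mem_QQ, pcut_fst]
    simp

variable {φ ℓ}

/-- evaluation for the positive pattern: copy `q` is true exactly at `t q`. -/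
theorem eval_pos (h : ∀ n, (semO (φ n) (ℓ n true)).Nonempty) (π : KK → ℕ → Bool)
    (hπ1 : ∀ q, ∃ n, π q n = true) (hπ2 : ∀ n, ∃ m, ∀ q : KK, q.col = m → π q n = true) :
    semO (FmM φ) (lab cII (lamP ℓ π)) = ∅ ∧ (semO (FmP φ) (lab cII (lamP ℓ π))).Nonempty := by
  have hM : semO (FmM φ) (lab cII (lamP ℓ π)) = ∅ := by
    rw [eq_empty_iff_forall_notMem]
    intro p hp
    rw [mem_FmM] at hp
    obtain ⟨h1, h2⟩ := hp
    rcases inn_or_out (reg_of_all _ h1) with ⟨q, hq⟩ | ho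
    · obtain ⟨n, hn⟩ := hπ1 q
      exact h2 n (inn_Ps_true ℓ π φ h hq hn)
    · obtain ⟨m, hm⟩ := hπ2 0
      exact h2 0 (out_Ps ℓ π φ h ho hm)
  refine ⟨hM, p0, ?_⟩
  rw [mem_FmP]
  refine ⟨fun n => ?_, ?_⟩
  · obtain ⟨m, hm⟩ := hπ2 n
    exact out_Ps ℓ π φ h p0_out hm
  · rw [hM, closure_empty]
    exact notMem_empty _

/-- evaluation for the negative pattern: the copies of colour `m0` are constantly false. -/
theorem eval_neg (h' : ∀ n, semO (φ n) (ℓ n false) = ∅)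
    (π : KK → ℕ → Bool) (m0 : ℕ) (hπ1 : ∀ q : KK, q.col = m0 → ∀ n, π q n = false)
    (hπ2 : ∀ q, ∃ n, π q n = false) :
    (semO (FmM φ) (lab cII (lamP ℓ π))).Nonempty ∧ semO (FmP φ) (lab cII (lamP ℓ π)) = ∅ := by
  have key : ∀ q : KK, q.col = m0 → pcut (pr q q) ∈ semO (FmM φ) (lab cII (lamP ℓ π)) := by
    intro q hq
    rw [mem_FmM]
    exact ⟨fun n => inn_EE _ (pcut_inn q q) n,
      fun n => inn_Ps_false ℓ π φ h' (pcut_inn q q) (hπ1 q hq n)⟩
  constructor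
  · obtain ⟨q, hq, _⟩ := fin_between KK.dense m0 ∅ ∅ (by simp)
    exact ⟨_, key q hq⟩
  · rw [eq_empty_iff_forall_notMem]
    intro p hp
    rw [mem_FmP] at hp
    obtain ⟨h1, h2⟩ := hp
    have hr : Reg p := reg_of_all (lamP ℓ π) fun n =>
      closure_minimal (Ps_subset cII _ n _) isClosed_closure (h1 n)
    rcases inn_or_out hr with ⟨q, hq⟩ | ho
    · obtain ⟨n, hn⟩ := hπ2 q
      exact inn_Ps_false ℓ π φ h' hq hn (h1 n)
    · exact h2 (out_acc ho m0 _ fun q hq => ⟨q, _, key q hq, pcut_loc _⟩)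

end two

end ANC
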