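import Pool.Agent.helper4.AN.Defs

/-!
# Points of a linear order: closures, formulas
-/

namespace ANC

open ANB Set Topology

section formulas

variable {Z : Type*} [TopologicalSpace Z]

/-- replacing atoms by atoms -/
def relab (g : ℕ → ℕ) : Fm → Fm
  | .atom l => .atom (g l)
  | .diff a b => .diff (relab g a) (relab g b)
  | .union f => .union (fun n => relab g (f n))
  | .inter f => .inter (fun n => relab g (f n))
  | .cl a => .cl (relab g a)

lemma sem_relab (g : ℕ → ℕ) (P : ℕ → Set Z) (φ : Fm) :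
    (relab g φ).sem P = φ.sem (fun l => P (g l)) := by
  induction φ with
  | atom l => rfl
  | diff a b iha ihb => simp only [relab, Fm.sem, iha, ihb]
  | union f ih => simp only [relab, Fm.sem, ih]
  | inter f ih => simp only [relab, Fm.sem, ih]
  | cl a ih => simp only [relab, Fm.sem, ih]

lemma sem_subset_closure (P : ℕ → Set Z) (φ : Fm) : φ.sem P ⊆ closure (⋃ l, P l) := by
  induction φ with
  | atom l => exact (subset_iUnion P l).trans subset_closure
  | diff a b iha ihb => exact (fun _ h => iha h.1)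
  | union f ih => exact iUnion_subset ih
  | inter f ih => exact (iInter_subset _ 0).trans (ih 0)
  | cl a ih => exact closure_minimal ih isClosed_closure

/-- evaluation inside an open piece -/
lemma sem_local {Z' : Type*} [TopologicalSpace Z'] (U : Set Z) (res : Z → Z') (P : ℕ → Set Z)
    (P' : ℕ → Set Z') (h : ∀ s ∈ U, ∀ l, s ∈ P l ↔ res s ∈ P' l)
    (hcl : ∀ (A : Set Z) (A' : Set Z'), (∀ s ∈ U, s ∈ A ↔ res s ∈ A') →
      ∀ s ∈ U, s ∈ closure A ↔ res s ∈ closure A') (φ : Fm) :
    ∀ s ∈ U, s ∈ φ.sem P ↔ res s ∈ φ.sem P' := by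
  induction φ with
  | atom l => exact fun s hs => h s hs l
  | diff a b iha ihb =>
    intro s hs
    show (s ∈ a.sem P ∧ ¬ s ∈ b.sem P) ↔ (res s ∈ a.sem P' ∧ ¬ res s ∈ b.sem P')
    rw [iha s hs, ihb s hs]
  | union f ih =>
    intro s hs
    simp only [Fm.sem, mem_iUnion]
    exact exists_congr fun n => ih n s hs
  | inter f ih =>
    intro s hs
    simp only [Fm.sem, mem_iInter]
    exact forall_congr' fun n => ih n s hs
  | cl a ih => exact fun s hs => hcl _ _ ih s hs

end formulas

section points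

variable {O : Type} [LinearOrder O]

/-- two points agree on a finite set of elements -/
def Agr (F : Finset O) (s t : Pt O) : Prop := ∀ x ∈ F, s.1.1 x = t.1.1 x ∧ s.1.2 x = t.1.2 x

lemma isOpen_agr (F : Finset O) (t : Pt O) : IsOpen {s | Agr F s t} := by
  have : {s | Agr F s t} = ⋂ x ∈ F, {s : Pt O | s.1.1 x = t.1.1 x ∧ s.1.2 x = t.1.2 x} := by
    ext s; simp [Agr]
  rw [this]
  refine isOpen_biInter_finset fun x _ => ?_
  refine IsOpen.inter ?_ ?_
  · have hc : Continuous fun s : Pt O => s.1.1 x := by fun_prop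
    exact (isOpen_discrete {t.1.1 x}).preimage hc
  · have hc : Continuous fun s : Pt O => s.1.2 x := by fun_prop
    exact (isOpen_discrete {t.1.2 x}).preimage hc

lemma exists_agr_of_isOpen {W : Set (Pt O)} (hW : IsOpen W) {p : Pt O} (hp : p ∈ W) :
    ∃ F : Finset O, ∀ s, Agr F s p → s ∈ W := by
  classical
  obtain ⟨W', hW', rfl⟩ := isOpen_induced_iff.1 hW
  obtain ⟨A, B, hA, hB, hpA, hpB, hAB⟩ := isOpen_prod_iff.1 hW' p.1.1 p.1.2 hp
  obtain ⟨I1, u1, h1, h1'⟩ := isOpen_pi_iff.1 hA _ hpA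
  obtain ⟨I2, u2, h2, h2'⟩ := isOpen_pi_iff.1 hB _ hpB
  refine ⟨I1 ∪ I2, fun s hs => ?_⟩
  apply hAB
  refine ⟨h1' ?_, h2' ?_⟩
  · intro x hx
    rw [(hs x (Finset.mem_union_left _ hx)).1]
    exact (h1 x hx).2
  · intro x hx
    rw [(hs x (Finset.mem_union_right _ hx)).2]
    exact (h2 x hx).2

lemma mem_closure_iff_agr (A : Set (Pt O)) (p : Pt O) :
    p ∈ closure A ↔ ∀ F : Finset O, ∃ s ∈ A, Agr F s p := by
  rw [mem_closure_iff]
  constructor
  · intro h F
    obtain ⟨s, hs, hsA⟩ := h _ (isOpen_agr F p) (fun x _ => ⟨rfl, rfl⟩)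
    exact ⟨s, hsA, hs⟩
  · intro h W hW hp
    obtain ⟨F, hF⟩ := exists_agr_of_isOpen hW hp
    obtain ⟨s, hsA, hs⟩ := h F
    exact ⟨s, hF s hs, hsA⟩

lemma eq_ptO {p : Pt O} {x : O} (h : p.1.2 x = true) : p = ptO x := by
  have h1 := p.2.2 x h
  apply Subtype.ext
  apply Prod.ext
  · funext j
    show p.1.1 j = decide (j < x)
    have := h1.1 j
    by_cases hj : j < x
    · rw [this.2 hj]; simp [hj]
    · have h2 : p.1.1 j ≠ true := fun hc => hj (this.1 hc)
      simp only [hj, decide_false]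
      simpa using h2
  · funext j
    show p.1.2 j = decide (j = x)
    by_cases hj : j = x
    · subst hj; rw [h]; simp
    · have h2 : p.1.2 j ≠ true := fun hc => hj (h1.2 j hc)
      simp only [hj, decide_false]
      simpa using h2

lemma ptO_fst (x j : O) : (ptO x).1.1 j = decide (j < x) := rfl
lemma ptO_snd (x j : O) : (ptO x).1.2 j = decide (j = x) := rfl

end points

end ANC
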