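import Pool.Agent.helper28.AN.Pts

/-!
# Sums of orders with separators
-/

namespace ANC

open ANB Set Topology

set_option linter.unusedSectionVars false

variable {I : Type} [LinearOrder I] {β : I → Type} [∀ i, LinearOrder (β i)]

/-- the sum of the orders `1 + β i + 1` -/
abbrev SS (β : I → Type) := Σₗ i, WithBot (WithTop (β i))

/-- an element of the sum -/
def mkS (i : I) (w : WithBot (WithTop (β i))) : SS β := toLex ⟨i, w⟩

/-- first element of a block -/
def bt (i : I) : SS β := mkS i ⊥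
/-- last element of a block -/
def tp (i : I) : SS β := mkS i ((⊤ : WithTop (β i)) : WithBot (WithTop (β i)))
/-- inner element of a block -/
def el (i : I) (o : β i) : SS β := mkS i ((o : WithTop (β i)) : WithBot (WithTop (β i)))
/-- index of the block -/
def idx (x : SS β) : I := (ofLex x).1

@[simp] lemma idx_bt (i : I) : idx (bt (β := β) i) = i := rfl
@[simp] lemma idx_tp (i : I) : idx (tp (β := β) i) = i := rfl
@[simp] lemma idx_el (i : I) (o : β i) : idx (el i o) = i := rfl
@[simp] lemma idx_mkS (i : I) (w : WithBot (WithTop (β i))) : idx (mkS i w) = i := rfl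

lemma lt_of_idx {x y : SS β} (h : idx x < idx y) : x < y := by
  rw [Sigma.Lex.lt_def]
  exact Or.inl h

lemma mk_lt_mk {i : I} {w w' : WithBot (WithTop (β i))} : mkS i w < mkS i w' ↔ w < w' := by
  rw [Sigma.Lex.lt_def]
  constructor
  · rintro (h | ⟨h, h'⟩)
    · exact absurd h (lt_irrefl _)
    · exact h'
  · intro h
    exact Or.inr ⟨rfl, h⟩

lemma idx_mono {x y : SS β} (h : x ≤ y) : idx x ≤ idx y := by
  by_contra hc
  push Not at hc
  exact absurd (lt_of_idx hc) (not_lt.2 h)

lemma cases_el (x : SS β) : x = bt (idx x) ∨ x = tp (idx x) ∨ ∃ o, x = el (idx x) o := by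
  obtain ⟨i, w⟩ := x
  induction w using WithBot.recBotCoe with
  | bot => exact Or.inl rfl
  | coe w =>
    induction w using WithTop.recTopCoe with
    | top => exact Or.inr (Or.inl rfl)
    | coe o => exact Or.inr (Or.inr ⟨o, rfl⟩)

lemma el_lt_el {i : I} {o o' : β i} : el i o < el i o' ↔ o < o' := by
  unfold el
  rw [mk_lt_mk, WithBot.coe_lt_coe, WithTop.coe_lt_coe]

lemma el_inj {i : I} {o o' : β i} : el i o = el i o' ↔ o = o' := by
  constructor
  · intro h
    rcases lt_trichotomy o o' with h1 | h1 | h1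
    · exact absurd h (ne_of_lt (el_lt_el.2 h1))
    · exact h1
    · exact absurd h (ne_of_gt (el_lt_el.2 h1))
  · rintro rfl; rfl

lemma bt_lt_el {i : I} {o : β i} : bt i < el i o := by
  unfold el bt
  rw [mk_lt_mk]
  exact WithBot.bot_lt_coe _

lemma el_lt_tp {i : I} {o : β i} : el i o < tp i := by
  unfold el tp
  rw [mk_lt_mk, WithBot.coe_lt_coe]
  exact WithTop.coe_lt_top _

lemma bt_lt_tp {i : I} : bt (β := β) i < tp i := by
  unfold bt tp
  rw [mk_lt_mk]
  exact WithBot.bot_lt_coe _

lemma bt_le (x : SS β) : bt (idx x) ≤ x := by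
  rcases cases_el x with h | h | ⟨o, h⟩
  · exact h.symm.le
  · rw [h]; exact bt_lt_tp.le
  · rw [h]; exact bt_lt_el.le

lemma le_tp (x : SS β) : x ≤ tp (idx x) := by
  rcases cases_el x with h | h | ⟨o, h⟩
  · rw [h]; exact bt_lt_tp.le
  · exact h.le
  · rw [h]; exact el_lt_tp.le

/-- the points of a block -/
def U (i : I) : Set (Pt (SS β)) :=
  {p | p.1.1 (bt i) = true ∧ p.1.1 (tp i) = false ∧ p.1.2 (tp i) = false}

lemma U_below {i : I} {s : Pt (SS β)} (hs : s ∈ U i) {x : SS β} (h : x < bt i) :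
    s.1.1 x = true ∧ s.1.2 x = false := by
  refine ⟨s.2.1 _ _ h hs.1, ?_⟩
  by_contra hc
  rw [Bool.not_eq_false] at hc
  have := ((s.2.2 x hc).1 (bt i)).1 hs.1
  exact absurd h (not_lt.2 this.le)

lemma U_above {i : I} {s : Pt (SS β)} (hs : s ∈ U i) {x : SS β} (h : tp i < x) :
    s.1.1 x = false ∧ s.1.2 x = false := by
  constructor
  · by_contra hc
    rw [Bool.not_eq_false] at hc
    have := s.2.1 _ _ h hc
    rw [hs.2.1] at this
    exact absurd this (by simp)
  · by_contra hc
    rw [Bool.not_eq_false] at hc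
    have := ((s.2.2 x hc).1 (tp i)).2 h
    rw [hs.2.1] at this
    exact absurd this (by simp)

lemma U_bt {i : I} {s : Pt (SS β)} (hs : s ∈ U i) : s.1.1 (bt i) = true ∧ s.1.2 (bt i) = false := by
  refine ⟨hs.1, ?_⟩
  by_contra hc
  rw [Bool.not_eq_false] at hc
  exact absurd (((s.2.2 _ hc).1 (bt i)).1 hs.1) (lt_irrefl _)

/-- points localized near a block -/
def Loc (i : I) (s : Pt (SS β)) : Prop :=
  ∀ x, (idx x < i → s.1.1 x = true ∧ s.1.2 x = false) ∧
    (i < idx x → s.1.1 x = false ∧ s.1.2 x = false)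

lemma loc_of_U {i : I} {s : Pt (SS β)} (hs : s ∈ U i) : Loc i s := by
  intro x
  constructor
  · intro h
    exact U_below hs (lt_of_idx h)
  · intro h
    exact U_above hs (lt_of_idx h)

lemma U_disjoint {i j : I} {s : Pt (SS β)} (hs : s ∈ U i) (hs' : s ∈ U j) : i = j := by
  rcases lt_trichotomy i j with h | h | h
  · have := ((loc_of_U hs (bt j)).2 h).1
    rw [hs'.1] at this
    exact absurd this (by simp)
  · exact h
  · have := ((loc_of_U hs' (bt i)).2 h).1
    rw [hs.1] at this
    exact absurd this (by simp)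

/-- restriction to a block -/
def res (i : I) (s : Pt (SS β)) : Pt (β i) :=
  ⟨(fun o => s.1.1 (el i o), fun o => s.1.2 (el i o)), by
    refine ⟨fun a b hab hb => s.2.1 _ _ (el_lt_el.2 hab) hb, fun x hx => ?_⟩
    have := s.2.2 _ hx
    refine ⟨fun j => ?_, fun j hj => ?_⟩
    · exact (this.1 (el i j)).trans el_lt_el
    · exact el_inj.1 (this.2 (el i j) hj)⟩

open Classical in
/-- extension from a block -/
noncomputable def emb (i : I) (t : Pt (β i)) : Pt (SS β) :=
  ⟨(fun x => decide (x ≤ bt i ∨ ∃ o, x = el i o ∧ t.1.1 o = true),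
    fun x => decide (∃ o, x = el i o ∧ t.1.2 o = true)), by
    have key : ∀ a (o : β i), a < el i o → a ≤ bt i ∨ ∃ o', a = el i o' ∧ o' < o := by
      intro a o hao
      rcases lt_or_eq_of_le (idx_mono hao.le) with h | h
      · exact Or.inl (lt_of_idx (x := a) (y := bt i) h).le
      · rw [idx_el] at h
        rcases cases_el a with h1 | h1 | ⟨o', h1⟩
        · rw [h1, h]; exact Or.inl le_rfl
        · exfalso
          have := le_tp (el i o)
          rw [idx_el] at this
          rw [h] at h1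
          rw [h1] at hao
          exact absurd this (not_le.2 hao)
        · subst h
          right
          refine ⟨o', h1, ?_⟩
          exact el_lt_el.1 (lt_of_eq_of_lt h1.symm hao)
    refine ⟨fun a b hab hb => ?_, fun x hx => ?_⟩
    · simp only [decide_eq_true_eq] at hb ⊢
      rcases hb with hb | ⟨o, rfl, ho⟩
      · exact Or.inl (hab.le.trans hb)
      · rcases key a o hab with h | ⟨o', rfl, h'⟩
        · exact Or.inl h
        · exact Or.inr ⟨o', rfl, t.2.1 _ _ h' ho⟩
    · simp only [decide_eq_true_eq] at hx ⊢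
      obtain ⟨o, rfl, ho⟩ := hx
      have h1 := t.2.2 o ho
      refine ⟨fun j => ⟨?_, ?_⟩, ?_⟩
      · rintro (h | ⟨o', rfl, h'⟩)
        · exact lt_of_le_of_lt h bt_lt_el
        · exact el_lt_el.2 ((h1.1 o').1 h')
      · intro h
        rcases key j o h with h | ⟨o', rfl, h'⟩
        · exact Or.inl h
        · exact Or.inr ⟨o', rfl, (h1.1 o').2 h'⟩
      · rintro j ⟨o', rfl, h'⟩
        rw [h1.2 o' h']⟩

lemma emb_fst (i : I) (t : Pt (β i)) (x : SS β) :
    (emb i t).1.1 x = true ↔ (x ≤ bt i ∨ ∃ o, x = el i o ∧ t.1.1 o = true) := by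
  unfold emb
  simp only [decide_eq_true_eq]

lemma emb_snd (i : I) (t : Pt (β i)) (x : SS β) :
    (emb i t).1.2 x = true ↔ (∃ o, x = el i o ∧ t.1.2 o = true) := by
  unfold emb
  simp only [decide_eq_true_eq]

lemma emb_mem (i : I) (t : Pt (β i)) : emb i t ∈ U i := by
  refine ⟨?_, ?_, ?_⟩
  · rw [emb_fst]; exact Or.inl le_rfl
  · rw [Bool.eq_false_iff, Ne, emb_fst]
    rintro (h | ⟨o, h, _⟩)
    · exact absurd h (not_le.2 bt_lt_tp)
    · exact absurd h (ne_of_gt el_lt_tp)
  · rw [Bool.eq_false_iff, Ne, emb_snd]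
    rintro ⟨o, h, _⟩
    exact absurd h (ne_of_gt el_lt_tp)

lemma res_emb (i : I) (t : Pt (β i)) : res i (emb i t) = t := by
  apply Subtype.ext
  apply Prod.ext
  · funext o
    show (emb i t).1.1 (el i o) = _
    rw [Bool.eq_iff_iff, emb_fst]
    constructor
    · rintro (h | ⟨o', h, h'⟩)
      · exact absurd h (not_le.2 bt_lt_el)
      · rw [el_inj.1 h]; exact h'
    · intro h
      exact Or.inr ⟨o, rfl, h⟩
  · funext o
    show (emb i t).1.2 (el i o) = _
    rw [Bool.eq_iff_iff, emb_snd]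
    constructor
    · rintro ⟨o', h, h'⟩
      rw [el_inj.1 h]; exact h'
    · intro h
      exact ⟨o, rfl, h⟩

/-- two points of a block agreeing on an inner element -/
lemma agr_of_res {i : I} {s s' : Pt (SS β)} (hs : s ∈ U i) (hs' : s' ∈ U i) {x : SS β}
    (h : ∀ o, x = el i o → s.1.1 x = s'.1.1 x ∧ s.1.2 x = s'.1.2 x) :
    s.1.1 x = s'.1.1 x ∧ s.1.2 x = s'.1.2 x := by
  rcases lt_trichotomy (idx x) i with hx | hx | hx
  · have h1 := (loc_of_U hs x).1 hx
    have h2 := (loc_of_U hs' x).1 hx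
    exact ⟨h1.1.trans h2.1.symm, h1.2.trans h2.2.symm⟩
  · rcases cases_el x with h1 | h1 | ⟨o, h1⟩
    · rw [hx] at h1
      subst h1
      have h1 := U_bt hs
      have h2 := U_bt hs'
      exact ⟨h1.1.trans h2.1.symm, h1.2.trans h2.2.symm⟩
    · rw [hx] at h1
      subst h1
      exact ⟨hs.2.1.trans hs'.2.1.symm, hs.2.2.trans hs'.2.2.symm⟩
    · subst hx
      exact h o h1
  · have h1 := (loc_of_U hs x).2 hx
    have h2 := (loc_of_U hs' x).2 hx
    exact ⟨h1.1.trans h2.1.symm, h1.2.trans h2.2.symm⟩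

lemma closure_local (i : I) (A : Set (Pt (SS β))) (A' : Set (Pt (β i)))
    (h : ∀ s ∈ U i, s ∈ A ↔ res i s ∈ A') : ∀ s ∈ U i, s ∈ closure A ↔ res i s ∈ closure A' := by
  classical
  intro s hs
  rw [mem_closure_iff_agr, mem_closure_iff_agr]
  constructor
  · intro hA F
    obtain ⟨s', hs'A, hs'⟩ := hA (F.image (el i) ∪ {bt i, tp i})
    have hU : s' ∈ U i := by
      have h1 := hs' (bt i) (by simp)
      have h2 := hs' (tp i) (by simp)
      exact ⟨h1.1.trans hs.1, h2.1.trans hs.2.1, h2.2.trans hs.2.2⟩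
    refine ⟨res i s', (h s' hU).1 hs'A, ?_⟩
    intro o ho
    exact hs' (el i o) (Finset.mem_union_left _ (Finset.mem_image_of_mem _ ho))
  · intro hA F
    have hinj : Function.Injective (el (β := β) i) := fun a b hab => el_inj.1 hab
    obtain ⟨t, htA, ht⟩ := hA (F.preimage (el i) hinj.injOn)
    refine ⟨emb i t, ?_, ?_⟩
    · rw [h _ (emb_mem i t), res_emb]; exact htA
    · intro x hx
      apply agr_of_res (emb_mem i t) hs
      rintro o rfl
      have h1 := ht o (Finset.mem_preimage.2 hx)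
      have h2 : res i (emb i t) = t := res_emb i t
      constructor
      · have h3 : (emb i t).1.1 (el i o) = (res i (emb i t)).1.1 o := rfl
        rw [h3, h2]; exact h1.1
      · have h3 : (emb i t).1.2 (el i o) = (res i (emb i t)).1.2 o := rfl
        rw [h3, h2]; exact h1.2

lemma isOpen_U (i : I) : IsOpen (U (β := β) i) := by
  have h1 : Continuous fun s : Pt (SS β) => s.1.1 (bt i) := by fun_prop
  have h2 : Continuous fun s : Pt (SS β) => s.1.1 (tp i) := by fun_prop
  have h3 : Continuous fun s : Pt (SS β) => s.1.2 (tp i) := by fun_prop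
  exact ((isOpen_discrete {true}).preimage h1).inter
    (((isOpen_discrete {false}).preimage h2).inter ((isOpen_discrete {false}).preimage h3))

lemma ptO_el_mem (i : I) (o : β i) : ptO (el i o) ∈ U i := by
  refine ⟨?_, ?_, ?_⟩
  · rw [ptO_fst]; simp [bt_lt_el]
  · rw [ptO_fst]; simp [(el_lt_tp (i := i) (o := o)).le]
  · rw [ptO_snd]; simp [ne_of_gt (el_lt_tp (i := i) (o := o))]

lemma ptO_mem_U {i : I} {x : SS β} (h : ptO x ∈ U i) : ∃ o, x = el i o := by
  have h1 : bt i < x := by
    have := h.1; rw [ptO_fst, decide_eq_true_eq] at this; exact this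
  have h2 : ¬ tp i < x := by
    have := h.2.1; rw [ptO_fst, decide_eq_false_iff_not] at this; exact this
  have h3 : tp i ≠ x := by
    have := h.2.2; rw [ptO_snd, decide_eq_false_iff_not] at this; exact this
  have h4 : x < tp i := lt_of_le_of_ne (not_lt.1 h2) h3.symm
  have h5 : idx x = i := le_antisymm (idx_mono h4.le) (idx_mono h1.le)
  rcases cases_el x with hx | hx | ⟨o, hx⟩
  · rw [h5] at hx; rw [hx] at h1; exact absurd h1 (lt_irrefl _)
  · rw [h5] at hx; exact absurd hx.symm h3
  · subst h5; exact ⟨o, hx⟩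

/-- cuts between blocks -/
def Reg (p : Pt (SS β)) : Prop := (∀ x, p.1.2 x = false) ∧ ∀ x, p.1.1 x = p.1.1 (bt (idx x))

/-- every point is in a block, or a separator, or a cut between blocks -/
lemma trichotomy (p : Pt (SS β)) :
    (∃ i, p ∈ U i) ∨ (∃ i, p = ptO (bt i) ∨ p = ptO (tp i)) ∨ Reg p := by
  by_cases h : ∃ x, p.1.2 x = true
  · obtain ⟨x, hx⟩ := h
    have hp := eq_ptO hx
    rcases cases_el x with h1 | h1 | ⟨o, h1⟩
    · exact Or.inr (Or.inl ⟨idx x, Or.inl (by rw [hp]; congr 1)⟩)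
    · exact Or.inr (Or.inl ⟨idx x, Or.inr (by rw [hp]; congr 1)⟩)
    · refine Or.inl ⟨idx x, ?_⟩
      rw [hp, h1]
      exact ptO_el_mem _ _
  · push Not at h
    have h' : ∀ x, p.1.2 x = false := fun x => by simpa using h x
    by_cases hU : ∃ i, p ∈ U i
    · exact Or.inl hU
    · refine Or.inr (Or.inr ⟨h', fun x => ?_⟩)
      by_cases hb : p.1.1 (bt (idx x)) = true
      · rw [hb]
        have ht : p.1.1 (tp (idx x)) = true := by
          by_contra hc
          exact hU ⟨idx x, hb, by simpa using hc, h' _⟩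
        rcases lt_or_eq_of_le (le_tp x) with h1 | h1
        · exact p.2.1 _ _ h1 ht
        · rw [h1]; exact ht
      · have hb' : p.1.1 (bt (idx x)) = false := by simpa using hb
        rw [hb']
        by_contra hc
        rw [Bool.not_eq_false] at hc
        rcases lt_or_eq_of_le (bt_le x) with h1 | h1
        · exact hb (p.2.1 _ _ h1 hc)
        · rw [← h1] at hc; exact hb hc

/-- accumulation at a cut between blocks -/
lemma acc {p : Pt (SS β)} (hp : Reg p) (A : Set (Pt (SS β)))
    (h : ∀ G : Finset I, ∃ i, (∀ j ∈ G, (p.1.1 (bt j) = true → j < i) ∧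
      (p.1.1 (bt j) = false → i < j)) ∧ ∃ s ∈ A, Loc i s) : p ∈ closure A := by
  classical
  rw [mem_closure_iff_agr]
  intro F
  obtain ⟨i, hi, s, hsA, hs⟩ := h (F.image idx)
  refine ⟨s, hsA, fun x hx => ?_⟩
  have h1 := hi (idx x) (Finset.mem_image_of_mem _ hx)
  rw [hp.1 x, hp.2 x]
  by_cases hb : p.1.1 (bt (idx x)) = true
  · rw [hb]
    exact (hs x).1 (h1.1 hb)
  · have hb' : p.1.1 (bt (idx x)) = false := by simpa using hb
    rw [hb']
    exact (hs x).2 (h1.2 hb')

end ANC
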